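import Pool.Agent.MNT.StmtsG
import Pool.Agent.Helper58_UB.QDed

/-!
# Squad MNT, row ORD: classes in the class group
-/

set_option autoImplicit false

namespace Pool.Agent.MNT.H65

open Polynomial NumberField

/-- ORD -/
theorem ord : OrdStmt := by
  intro K _ _ C x y
  obtain ⟨g, hg⟩ := C.odd
  have hD : IsDedekindDomain (H58Q.Q K C.f) := H58Q.isDedekind hg C.sqfree two_ne_zero
  have hI0 : ptI C.f x y ≠ ⊥ := by
    intro h
    have h1 : (⟨X - Polynomial.C x, 0⟩ : H58Q.Q K C.f) ∈ ptI C.f x y := by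
      unfold ptI
      exact Ideal.subset_span (by simp)
    rw [h, Ideal.mem_bot] at h1
    have h2 := congrArg QuadraticAlgebra.re h1
    exact X_sub_C_ne_zero x h2
  have hI : ptI C.f x y ∈ nonZeroDivisors (Ideal (H58Q.Q K C.f)) :=
    mem_nonZeroDivisors_iff_ne_zero.2 hI0
  have key : ∀ N : ℕ, (ClassGroup.mk0 ⟨ptI C.f x y, hI⟩ : C.Jac) ^ N = 1 ↔
      ((ptI C.f x y) ^ N).IsPrincipal := by
    intro N
    rw [← map_pow]
    have h1 : (⟨ptI C.f x y, hI⟩ : nonZeroDivisors (Ideal (H58Q.Q K C.f))) ^ N =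
        ⟨(ptI C.f x y) ^ N, pow_mem hI N⟩ := rfl
    rw [h1]
    exact ClassGroup.mk0_eq_one_iff _
  refine ⟨ClassGroup.mk0 ⟨ptI C.f x y, hI⟩, ?_, ?_, ?_⟩
  · rw [isOfFinOrder_iff_pow_eq_one]
    constructor
    · rintro ⟨N, hN, h⟩
      exact ⟨N, hN, (key N).1 h⟩
    · rintro ⟨N, hN, h⟩
      exact ⟨N, hN, (key N).2 h⟩
  · rintro N ⟨hN, h⟩
    exact orderOf_le_of_pow_eq_one hN ((key N).2 h)
  · intro _ h
    rfl

end Pool.Agent.MNT.H65
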